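import Mathlib

/-!
Recognising graphs in which given edge sequences are paths: NP-hardness.

Reduction from monotone not-all-equal 3-satisfiability.  For a formula `F` take one edge `e₀`, for
every variable `u` an edge `g_u`, for every clause `j` three edges `f_{j,1}, f_{j,2}, f_{j,3}` and
one edge `h_j`, and the sequences `(g_u, e₀, f_{j,i}, h_j)` for every occurrence of the variable `u`
at position `i` of clause `j`.  In a realisation `f_{j,i}` hangs on the end of `e₀` which is
opposite to `g_u`, and `h_j` meets the far ends of `f_{j,1}, f_{j,2}, f_{j,3}`, so that these three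
edges cannot all hang on the same end of `e₀`.

The second ingredient is an explicit multi-stack Turing machine (in the sense of Mathlib) which
computes the reduction in polynomial time.
-/


namespace Pool.Agent.Results.MP_a6fa5c_lc.NPHard

open Turing Turing.TM2

/-- Unary encoding of a number: `k` marks `true` followed by the delimiter `false`. -/
def un (k : ℕ) : List Bool := List.replicate k true ++ [false]

/-- Encoding of a formula (a list of triples of variable indices). -/
def encF (F : List (ℕ × ℕ × ℕ)) : List Bool := F.flatMap fun c => un c.1 ++ un c.2.1 ++ un c.2.2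

/-- Encoding of one sequence of numbers: its length followed by its entries, all in unary. -/
def encS (S : List ℕ) : List Bool := un S.length ++ S.flatMap un

/-- The sequence produced from position `i` of clause number `j` with variable `u`. -/
def sq (j i u : ℕ) : List ℕ := [5 * u + 5, 0, 5 * j + i, 5 * j + 4]

/-- The list of all sequences, last clause first. -/
def go : ℕ → List (ℕ × ℕ × ℕ) → List (List ℕ) → List (List ℕ)
  | _, [], acc => acc
  | j, (a, b, c) :: F, acc => go (j + 1) F (sq j 3 c :: sq j 2 b :: sq j 1 a :: acc)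

/-- Total size of a formula. -/
def sz (F : List (ℕ × ℕ × ℕ)) : ℕ := (F.map fun c => c.1 + c.2.1 + c.2.2 + 1).sum

/-! ### The machine -/

/-- Stacks. -/
inductive Stk | inp | out | ctr | tmp | siz
  deriving DecidableEq, Fintype

/-- Labels. -/
inductive Lbl | start | copy1 (i : Fin 3) | copy2 (i : Fin 3) | read (i : Fin 3) | fin1 | fin2
  deriving DecidableEq, Fintype

/-- Statements of the machine. -/
abbrev St := Stmt (fun _ : Stk => Bool) Lbl (Option Bool)

/-- Push `n` marks on the output stack. -/
def pushT (n : ℕ) (q : St) : St := (fun q => Stmt.push Stk.out (fun _ => true) q)^[n] q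

/-- Push a delimiter on the output stack. -/
def pushF (q : St) : St := Stmt.push Stk.out (fun _ => false) q

/-- The program. -/
def prog : Lbl → St
  | .start => Stmt.peek Stk.inp (fun _ o => o) <|
      Stmt.branch (fun v => v.isSome) (pushF <| Stmt.goto fun _ => .copy1 0)
        (pushF <| Stmt.goto fun _ => .fin1)
  | .copy1 i => Stmt.pop Stk.ctr (fun _ o => o) <|
      Stmt.branch (fun v => v.isSome)
        (Stmt.push Stk.tmp (fun _ => true) <| pushT 5 <| Stmt.goto fun _ => .copy1 i)
        (pushT 4 <| pushF <| Stmt.goto fun _ => .copy2 i)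
  | .copy2 i => Stmt.pop Stk.tmp (fun _ o => o) <|
      Stmt.branch (fun v => v.isSome)
        (Stmt.push Stk.ctr (fun _ => true) <| pushT 5 <| Stmt.goto fun _ => .copy2 i)
        (pushT (i.val + 1) <| pushF <| pushF <| Stmt.goto fun _ => .read i)
  | .read i => Stmt.pop Stk.inp (fun _ o => o) <|
      Stmt.branch (fun v => v = some true)
        (Stmt.push Stk.siz (fun _ => true) <| pushT 5 <| Stmt.goto fun _ => .read i)
        (pushT 5 <| pushF <| pushT 4 <|
          if i = 2 then
            Stmt.push Stk.ctr (fun _ => true) <| Stmt.push Stk.siz (fun _ => true) <|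
              Stmt.goto fun _ => .start
          else pushF <| Stmt.goto fun _ => .copy1 (i + 1))
  | .fin1 => Stmt.pop Stk.siz (fun _ o => o) <|
      Stmt.branch (fun v => v.isSome) (pushT 5 <| Stmt.goto fun _ => .fin1)
        (pushT 6 <| Stmt.goto fun _ => .fin2)
  | .fin2 => Stmt.pop Stk.ctr (fun _ o => o) <|
      Stmt.branch (fun v => v.isSome) (Stmt.goto fun _ => .fin2) Stmt.halt

/-- The bundled machine. -/
def tm : FinTM2 where
  K := Stk
  k₀ := .inp
  k₁ := .out
  Γ _ := Bool
  Λ := Lbl
  main := .start
  σ := Option Bool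
  initialState := none
  Γk₀Fin := inferInstance
  m := prog

/-- The contents of the five stacks. -/
def stk (i o c t s : List Bool) : Stk → List Bool
  | .inp => i
  | .out => o
  | .ctr => c
  | .tmp => t
  | .siz => s

@[simp] lemma upd_inp (i o c t s l : List Bool) :
    Function.update (stk i o c t s) Stk.inp l = stk l o c t s := by
  funext k; cases k <;> rfl
@[simp] lemma upd_out (i o c t s l : List Bool) :
    Function.update (stk i o c t s) Stk.out l = stk i l c t s := by
  funext k; cases k <;> rfl
@[simp] lemma upd_ctr (i o c t s l : List Bool) :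
    Function.update (stk i o c t s) Stk.ctr l = stk i o l t s := by
  funext k; cases k <;> rfl
@[simp] lemma upd_tmp (i o c t s l : List Bool) :
    Function.update (stk i o c t s) Stk.tmp l = stk i o c l s := by
  funext k; cases k <;> rfl
@[simp] lemma upd_siz (i o c t s l : List Bool) :
    Function.update (stk i o c t s) Stk.siz l = stk i o c t l := by
  funext k; cases k <;> rfl

@[simp] lemma stk_inp (i o c t s : List Bool) : stk i o c t s Stk.inp = i := rfl
@[simp] lemma stk_out (i o c t s : List Bool) : stk i o c t s Stk.out = o := rfl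
@[simp] lemma stk_ctr (i o c t s : List Bool) : stk i o c t s Stk.ctr = c := rfl
@[simp] lemma stk_tmp (i o c t s : List Bool) : stk i o c t s Stk.tmp = t := rfl
@[simp] lemma stk_siz (i o c t s : List Bool) : stk i o c t s Stk.siz = s := rfl

@[simp] lemma stepAux_pushF (q : St) (v : Option Bool) (i o c t s : List Bool) :
    stepAux (pushF q) v (stk i o c t s) = stepAux q v (stk i (false :: o) c t s) := by
  simp [pushF]

@[simp] lemma stepAux_pushT (n : ℕ) (q : St) (v : Option Bool) (i o c t s : List Bool) :
    stepAux (pushT n q) v (stk i o c t s)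
      = stepAux q v (stk i (List.replicate n true ++ o) c t s) := by
  induction n generalizing q o with
  | zero => simp [pushT]
  | succ n ih =>
    have : pushT (n + 1) q = pushT n (Stmt.push Stk.out (fun _ => true) q) := by
      simp [pushT, Function.iterate_succ_apply]
    rw [this, ih]
    simp [List.replicate_succ]

/-- Configurations of the machine. -/
abbrev cfg (l : Option Lbl) (v : Option Bool) (S : Stk → List Bool) : tm.Cfg := ⟨l, v, S⟩

/-- `Run n a b`: the machine goes from `a` to `b` in exactly `n` steps. -/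
def Run (n : ℕ) (a b : tm.Cfg) : Prop := (flip bind tm.step)^[n] (some a) = some b

lemma Run.refl (a : tm.Cfg) : Run 0 a a := rfl

lemma Run.trans {m n : ℕ} {a b c : tm.Cfg} (h1 : Run m a b) (h2 : Run n b c) :
    Run (m + n) a c := by
  unfold Run at *
  rw [add_comm, Function.iterate_add_apply, h1, h2]

lemma Run.one {l : Lbl} {v : Option Bool} {S : Stk → List Bool} {b : tm.Cfg}
    (h : stepAux (prog l) v S = b) : Run 1 (cfg (some l) v S) b := by
  subst h
  rfl

/-- Marks. -/
abbrev tt (n : ℕ) : List Bool := List.replicate n true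

lemma tt_snoc (n : ℕ) (l : List Bool) : tt n ++ true :: l = true :: (tt n ++ l) := by
  induction n with
  | zero => rfl
  | succ n ih => simp [List.replicate_succ, ih]

lemma run_copy1 (i : Fin 3) (inp s : List Bool) (v : Option Bool) : ∀ (j k : ℕ) (o : List Bool),
    Run (j + 1) (cfg (some (.copy1 i)) v (stk inp o (tt j) (tt k) s))
      (cfg (some (.copy2 i)) none (stk inp (false :: (tt (5 * j + 4) ++ o)) [] (tt (j + k)) s)) := by
  intro j
  induction j generalizing v with
  | zero =>
    intro k o
    apply Run.one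
    simp [prog, cfg]
    rfl
  | succ j ih =>
    intro k o
    have h1 : Run 1 (cfg (some (.copy1 i)) v (stk inp o (tt (j + 1)) (tt k) s))
        (cfg (some (.copy1 i)) (some true) (stk inp (tt 5 ++ o) (tt j) (tt (k + 1)) s)) := by
      apply Run.one
      simp [prog, cfg, List.replicate_succ]
      rfl
    have h2 := ih (some true) (k + 1) (tt 5 ++ o)
    have h3 := h1.trans h2
    have e1 : 1 + (j + 1) = j + 1 + 1 := by ring
    have e2 : tt (5 * j + 4) ++ (tt 5 ++ o) = tt (5 * (j + 1) + 4) ++ o := by
      rw [← List.append_assoc, ← List.replicate_add]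
      congr 2
    have e3 : j + (k + 1) = j + 1 + k := by ring
    rw [e1, e2, e3] at h3
    exact h3

lemma run_copy2 (i : Fin 3) (inp s : List Bool) (v : Option Bool) : ∀ (j k : ℕ) (o : List Bool),
    Run (j + 1) (cfg (some (.copy2 i)) v (stk inp o (tt k) (tt j) s))
      (cfg (some (.read i)) none
        (stk inp (false :: false :: (tt (5 * j + (i.val + 1)) ++ o)) (tt (j + k)) [] s)) := by
  intro j
  induction j generalizing v with
  | zero =>
    intro k o
    apply Run.one
    simp [prog, cfg]
    rfl
  | succ j ih =>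
    intro k o
    have h1 : Run 1 (cfg (some (.copy2 i)) v (stk inp o (tt k) (tt (j + 1)) s))
        (cfg (some (.copy2 i)) (some true) (stk inp (tt 5 ++ o) (tt (k + 1)) (tt j) s)) := by
      apply Run.one
      simp [prog, cfg, List.replicate_succ]
      rfl
    have h2 := ih (some true) (k + 1) (tt 5 ++ o)
    have h3 := h1.trans h2
    have e1 : 1 + (j + 1) = j + 1 + 1 := by ring
    have e2 : tt (5 * j + (i.val + 1)) ++ (tt 5 ++ o) = tt (5 * (j + 1) + (i.val + 1)) ++ o := by
      rw [← List.append_assoc, ← List.replicate_add]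
      congr 2; ring
    have e3 : j + (k + 1) = j + 1 + k := by ring
    rw [e1, e2, e3] at h3
    exact h3

/-- Reading one number. -/
lemma run_read_loop (i : Fin 3) (inp c t : List Bool) (v : Option Bool) :
    ∀ (u k : ℕ) (o : List Bool),
    ∃ w, Run u (cfg (some (.read i)) v (stk (un u ++ inp) o c t (tt k)))
      (cfg (some (.read i)) w (stk (un 0 ++ inp) (tt (5 * u) ++ o) c t (tt (u + k)))) := by
  intro u
  induction u generalizing v with
  | zero => intro k o; exact ⟨v, by simpa [un] using Run.refl _⟩
  | succ u ih =>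
    intro k o
    have h1 : Run 1 (cfg (some (.read i)) v (stk (un (u + 1) ++ inp) o c t (tt k)))
        (cfg (some (.read i)) (some true) (stk (un u ++ inp) (tt 5 ++ o) c t (tt (k + 1)))) := by
      apply Run.one
      simp [prog, cfg, un, List.replicate_succ]
      rfl
    obtain ⟨w, h2⟩ := ih (some true) (k + 1) (tt 5 ++ o)
    refine ⟨w, ?_⟩
    have h3 := h1.trans h2
    have e1 : 1 + u = u + 1 := by ring
    have e2 : tt (5 * u) ++ (tt 5 ++ o) = tt (5 * (u + 1)) ++ o := by
      rw [← List.append_assoc, ← List.replicate_add]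
      congr 2
    have e3 : u + (k + 1) = u + 1 + k := by ring
    rw [e1, e2, e3] at h3
    exact h3

lemma run_read_end (i : Fin 3) (hi : i ≠ 2) (inp o c t s : List Bool) (v : Option Bool) :
    Run 1 (cfg (some (.read i)) v (stk (un 0 ++ inp) o c t s))
      (cfg (some (.copy1 (i + 1))) (some false)
        (stk inp (false :: (tt 4 ++ (false :: (tt 5 ++ o)))) c t s)) := by
  apply Run.one
  simp [prog, cfg, un, hi]
  rfl

lemma run_read_end2 (inp o t : List Bool) (j k : ℕ) (v : Option Bool) :
    Run 1 (cfg (some (.read 2)) v (stk (un 0 ++ inp) o (tt j) t (tt k)))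
      (cfg (some .start) (some false)
        (stk inp (tt 4 ++ (false :: (tt 5 ++ o))) (tt (j + 1)) t (tt (k + 1)))) := by
  apply Run.one
  simp [prog, cfg, un, List.replicate_succ]
  rfl

lemma encS_sq (j i u : ℕ) (o : List Bool) :
    encS (sq j i u) ++ o = tt 4 ++ (false :: (tt 5 ++ (tt (5 * u) ++
      (false :: false :: (tt (5 * j + i) ++ (false :: (tt (5 * j + 4) ++ (false :: o)))))))) := by
  have e : tt 5 ++ (tt (5 * u) ++ (false :: false :: (tt (5 * j + i) ++ (false ::
      (tt (5 * j + 4) ++ (false :: o)))))) = tt (5 * u + 5) ++ (false :: false ::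
      (tt (5 * j + i) ++ (false :: (tt (5 * j + 4) ++ (false :: o))))) := by
    rw [← List.append_assoc, ← List.replicate_add, Nat.add_comm 5]
  rw [e]
  simp [encS, sq, un, List.replicate_succ]

/-- One sequence (positions `0`, `1`). -/
lemma run_seq (i : Fin 3) (hi : i ≠ 2) (inp o : List Bool) (v : Option Bool) (j u k : ℕ) :
    ∃ w, Run (2 * j + u + 3)
      (cfg (some (.copy1 i)) v (stk (un u ++ inp) (false :: o) (tt j) [] (tt k)))
      (cfg (some (.copy1 (i + 1))) w
        (stk inp (false :: (encS (sq j (i.val + 1) u) ++ o)) (tt j) [] (tt (u + k)))) := by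
  have h1 := run_copy1 i (un u ++ inp) (tt k) v j 0 (false :: o)
  have h2 := run_copy2 i (un u ++ inp) (tt k) none j 0
    (false :: (tt (5 * j + 4) ++ (false :: o)))
  obtain ⟨w, h3⟩ := run_read_loop i inp (tt (j + 0)) [] none u k
    (false :: false :: (tt (5 * j + (i.val + 1)) ++ (false :: (tt (5 * j + 4) ++ (false :: o)))))
  have h4 := run_read_end i hi inp (tt (5 * u) ++ (false :: false ::
    (tt (5 * j + (i.val + 1)) ++ (false :: (tt (5 * j + 4) ++ (false :: o)))))) (tt (j + 0)) []
    (tt (u + k)) w
  refine ⟨some false, ?_⟩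
  have h := ((h1.trans h2).trans h3).trans h4
  rw [encS_sq]
  have e : j + 1 + (j + 1) + u + 1 = 2 * j + u + 3 := by ring
  rw [e] at h
  exact h

/-- One sequence (position `2`, including the end of the clause). -/
lemma run_seq2 (inp o : List Bool) (v : Option Bool) (j u k : ℕ) :
    ∃ w, Run (2 * j + u + 3)
      (cfg (some (.copy1 2)) v (stk (un u ++ inp) (false :: o) (tt j) [] (tt k)))
      (cfg (some .start) w
        (stk inp (encS (sq j 3 u) ++ o) (tt (j + 1)) [] (tt (u + k + 1)))) := by
  have h1 := run_copy1 2 (un u ++ inp) (tt k) v j 0 (false :: o)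
  have h2 := run_copy2 2 (un u ++ inp) (tt k) none j 0
    (false :: (tt (5 * j + 4) ++ (false :: o)))
  obtain ⟨w, h3⟩ := run_read_loop 2 inp (tt (j + 0)) [] none u k
    (false :: false :: (tt (5 * j + ((2 : Fin 3).val + 1)) ++
      (false :: (tt (5 * j + 4) ++ (false :: o)))))
  have h4 := run_read_end2 inp (tt (5 * u) ++ (false :: false ::
    (tt (5 * j + ((2 : Fin 3).val + 1)) ++ (false :: (tt (5 * j + 4) ++ (false :: o)))))) []
    (j + 0) (u + k) w
  refine ⟨some false, ?_⟩
  have h := ((h1.trans h2).trans h3).trans h4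
  rw [encS_sq]
  have e : j + 1 + (j + 1) + u + 1 = 2 * j + u + 3 := by ring
  rw [e] at h
  exact h

/-- One clause. -/
lemma run_clause (inp o : List Bool) (v : Option Bool) (j a b c k : ℕ) :
    ∃ w, Run (6 * j + (a + b + c) + 10)
      (cfg (some .start) v (stk (un a ++ un b ++ un c ++ inp) o (tt j) [] (tt k)))
      (cfg (some .start) w
        (stk inp (encS (sq j 3 c) ++ (encS (sq j 2 b) ++ (encS (sq j 1 a) ++ o)))
          (tt (j + 1)) [] (tt (k + (a + b + c + 1))))) := by
  have h0 : ∃ w, Run 1
      (cfg (some .start) v (stk (un a ++ un b ++ un c ++ inp) o (tt j) [] (tt k)))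
      (cfg (some (.copy1 0)) w
        (stk (un a ++ (un b ++ (un c ++ inp))) (false :: o) (tt j) [] (tt k))) := by
    cases a with
    | zero =>
      refine ⟨some false, ?_⟩
      apply Run.one
      simp [prog, cfg, un]
      rfl
    | succ a =>
      refine ⟨some true, ?_⟩
      apply Run.one
      simp [prog, cfg, un, List.replicate_succ]
      rfl
  obtain ⟨w0, h0⟩ := h0
  obtain ⟨w1, h1⟩ := run_seq 0 (by decide) (un b ++ (un c ++ inp)) o w0 j a k
  obtain ⟨w2, h2⟩ := run_seq 1 (by decide) (un c ++ inp) (encS (sq j 1 a) ++ o) w1 j b (a + k)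
  obtain ⟨w3, h3⟩ := run_seq2 inp (encS (sq j 2 b) ++ (encS (sq j 1 a) ++ o)) w2 j c
    (b + (a + k))
  refine ⟨w3, ?_⟩
  have h := ((h0.trans h1).trans h2).trans h3
  have e : 1 + (2 * j + a + 3) + (2 * j + b + 3) + (2 * j + c + 3) = 6 * j + (a + b + c) + 10 := by
    ring
  have e2 : c + (b + (a + k)) + 1 = k + (a + b + c + 1) := by ring
  rw [e, e2] at h
  exact h

/-- All clauses: number of steps. -/
def stepsF : ℕ → List (ℕ × ℕ × ℕ) → ℕ
  | _, [] => 0
  | j, (a, b, c) :: F => 6 * j + (a + b + c) + 10 + stepsF (j + 1) F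

lemma run_all : ∀ (F : List (ℕ × ℕ × ℕ)) (v : Option Bool) (j k : ℕ) (acc : List (List ℕ)),
    ∃ w, Run (stepsF j F)
      (cfg (some .start) v (stk (encF F) (acc.flatMap encS) (tt j) [] (tt k)))
      (cfg (some .start) w
        (stk [] ((go j F acc).flatMap encS) (tt (j + F.length)) [] (tt (k + sz F)))) := by
  intro F
  induction F with
  | nil => intro v j k acc; exact ⟨v, by simpa [encF, go, sz, stepsF] using Run.refl _⟩
  | cons x F ih =>
    obtain ⟨a, b, c⟩ := x
    intro v j k acc
    obtain ⟨w, h⟩ := run_clause (encF F) (acc.flatMap encS) v j a b c k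
    obtain ⟨w', h'⟩ := ih w (j + 1) (k + (a + b + c + 1))
      (sq j 3 c :: sq j 2 b :: sq j 1 a :: acc)
    refine ⟨w', ?_⟩
    have e1 : encF ((a, b, c) :: F) = un a ++ un b ++ un c ++ encF F := by
      simp [encF]
    have e2 : (sq j 3 c :: sq j 2 b :: sq j 1 a :: acc).flatMap encS
        = encS (sq j 3 c) ++ (encS (sq j 2 b) ++ (encS (sq j 1 a) ++ acc.flatMap encS)) := by
      simp [List.flatMap_cons]
    have e3 : k + sz ((a, b, c) :: F) = k + (a + b + c + 1) + sz F := by
      simp [sz]; ring
    have e4 : j + ((a, b, c) :: F).length = j + 1 + F.length := by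
      simp; ring
    rw [e2] at h'
    rw [e1, e3, e4]
    exact h.trans h'

lemma run_fin1 (v : Option Bool) (c : List Bool) : ∀ (s : ℕ) (o : List Bool),
    Run (s + 1) (cfg (some .fin1) v (stk [] o c [] (tt s)))
      (cfg (some .fin2) none (stk [] (tt (5 * s + 6) ++ o) c [] [])) := by
  intro s
  induction s generalizing v with
  | zero =>
    intro o
    apply Run.one
    simp [prog, cfg]
    rfl
  | succ s ih =>
    intro o
    have h1 : Run 1 (cfg (some .fin1) v (stk [] o c [] (tt (s + 1))))
        (cfg (some .fin1) (some true) (stk [] (tt 5 ++ o) c [] (tt s))) := by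
      apply Run.one
      simp [prog, cfg, List.replicate_succ]
      rfl
    have h3 := h1.trans (ih (some true) (tt 5 ++ o))
    have e1 : 1 + (s + 1) = s + 1 + 1 := by ring
    have e2 : tt (5 * s + 6) ++ (tt 5 ++ o) = tt (5 * (s + 1) + 6) ++ o := by
      rw [← List.append_assoc, ← List.replicate_add]
      congr 2
    rw [e1, e2] at h3
    exact h3

lemma run_fin2 (v : Option Bool) (o : List Bool) : ∀ (j : ℕ),
    Run (j + 1) (cfg (some .fin2) v (stk [] o (tt j) [] []))
      (cfg none none (stk [] o [] [] [])) := by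
  intro j
  induction j generalizing v with
  | zero =>
    apply Run.one
    simp [prog, cfg]
    rfl
  | succ j ih =>
    have h1 : Run 1 (cfg (some .fin2) v (stk [] o (tt (j + 1)) [] []))
        (cfg (some .fin2) (some true) (stk [] o (tt j) [] [])) := by
      apply Run.one
      simp [prog, cfg, List.replicate_succ]
      rfl
    have h3 := h1.trans (ih (some true))
    have e1 : 1 + (j + 1) = j + 1 + 1 := by ring
    rw [e1] at h3
    exact h3

/-- The whole run. -/
lemma run_total (F : List (ℕ × ℕ × ℕ)) :
    Run (stepsF 0 F + 1 + (sz F + 1) + (F.length + 1))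
      (cfg (some .start) none (stk (encF F) [] [] [] []))
      (cfg none none (stk [] (un (5 * sz F + 6) ++ (go 0 F []).flatMap encS) [] [] [])) := by
  obtain ⟨w, h1⟩ := run_all F none 0 0 []
  have h2 : Run 1
      (cfg (some .start) w
        (stk [] ((go 0 F []).flatMap encS) (tt (0 + F.length)) [] (tt (0 + sz F))))
      (cfg (some .fin1) none
        (stk [] (false :: (go 0 F []).flatMap encS) (tt (0 + F.length)) [] (tt (0 + sz F)))) := by
    apply Run.one
    simp [prog, cfg]
    rfl
  have h3 := run_fin1 none (tt (0 + F.length)) (0 + sz F) (false :: (go 0 F []).flatMap encS)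
  have h4 := run_fin2 none (tt (5 * (0 + sz F) + 6) ++ (false :: (go 0 F []).flatMap encS))
    (0 + F.length)
  have h := ((h1.trans h2).trans h3).trans h4
  simp only [zero_add] at h
  have e : un (5 * sz F + 6) ++ (go 0 F []).flatMap encS
      = tt (5 * sz F + 6) ++ (false :: (go 0 F []).flatMap encS) := by
    simp [un]
  rw [e]
  exact h


/-! ### Instances and realisations -/

/-- An instance: the ground set is `E = {0, …, n - 1}`, together with finitely many finite
sequences of elements of `E`. -/
structure Inst where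
  /-- number of elements of `E` -/
  n : ℕ
  /-- the sequences -/
  seqs : List (List (Fin n))

/-- `S = (e₁, …, e_k)` is a simple path: there are pairwise distinct vertices `v₀, …, v_k` such that
`e_i` joins `v_{i-1}` and `v_i`.  (`φ` gives the two endpoints of each edge.) -/
def IsSimplePath {V : Type} {n : ℕ} (φ : Fin n → Sym2 V) (S : List (Fin n)) : Prop :=
  ∃ v : Fin (S.length + 1) → V, Function.Injective v ∧
    ∀ i : Fin S.length, φ (S.get i) = s(v i.castSucc, v i.succ)

/-- The instance has a realisation: a finite simple graph `G` whose edges are exactly the elements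
of `E` (via the bijection `φ`), in which every sequence is a simple path. -/
def Inst.Realisable (I : Inst) : Prop :=
  ∃ (V : Type) (_ : Finite V) (G : SimpleGraph V) (φ : Fin I.n ≃ G.edgeSet),
    ∀ S ∈ I.seqs, IsSimplePath (fun e => (φ e : Sym2 V)) S

/-- Encoding of an instance: `n` in unary, followed by the encodings of the sequences. -/
def encI (I : Inst) : List Bool := un I.n ++ I.seqs.flatMap fun S => encS (S.map Fin.val)

/-- `F` is satisfiable in the not-all-equal sense: some truth assignment makes no clause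
`(a, b, c)` of `F` constant. -/
def NAESat (F : List (ℕ × ℕ × ℕ)) : Prop :=
  ∃ val : ℕ → Bool, ∀ c ∈ F, ¬ (val c.1 = val c.2.1 ∧ val c.2.1 = val c.2.2)

/-- The reduction. -/
def red (F : List (ℕ × ℕ × ℕ)) : Inst where
  n := 5 * sz F + 6
  seqs := (go 0 F []).map fun S => S.map (Fin.ofNat (5 * sz F + 6))

/-- The variable at position `r` of clause `j`. -/
def vr (F : List (ℕ × ℕ × ℕ)) (j r : ℕ) : ℕ :=
  match r with
  | 1 => (F.getD j (0, 0, 0)).1
  | 2 => (F.getD j (0, 0, 0)).2.1
  | _ => (F.getD j (0, 0, 0)).2.2

lemma mem_go : ∀ (F : List (ℕ × ℕ × ℕ)) (j : ℕ) (acc : List (List ℕ)) (S : List ℕ),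
    S ∈ go j F acc ↔ S ∈ acc ∨ ∃ k < F.length, ∃ r, (r = 1 ∨ r = 2 ∨ r = 3) ∧
      S = sq (j + k) r (vr F k r) := by
  intro F
  induction F with
  | nil => intro j acc S; simp [go]
  | cons x F ih =>
    obtain ⟨a, b, c⟩ := x
    intro j acc S
    rw [go, ih]
    constructor
    · rintro (h | ⟨k, hk, r, hr, rfl⟩)
      · simp only [List.mem_cons] at h
        rcases h with h | h | h | h
        · exact Or.inr ⟨0, by simp, 3, by simp, by simpa [vr] using h⟩
        · exact Or.inr ⟨0, by simp, 2, by simp, by simpa [vr] using h⟩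
        · exact Or.inr ⟨0, by simp, 1, by simp, by simpa [vr] using h⟩
        · exact Or.inl h
      · refine Or.inr ⟨k + 1, by simpa using hk, r, hr, ?_⟩
        have e1 : j + 1 + k = j + (k + 1) := by ring
        rw [e1]
        rcases hr with rfl | rfl | rfl <;> simp [vr]
    · rintro (h | ⟨k, hk, r, hr, rfl⟩)
      · left; simp [h]
      · cases k with
        | zero =>
          left
          rcases hr with rfl | rfl | rfl <;> simp [vr]
        | succ k =>
          right
          refine ⟨k, by simpa using hk, r, hr, ?_⟩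
          have e1 : j + 1 + k = j + (k + 1) := by ring
          rw [e1]
          rcases hr with rfl | rfl | rfl <;> simp [vr]

lemma len_le_sz (F : List (ℕ × ℕ × ℕ)) : F.length ≤ sz F := by
  induction F with
  | nil => simp [sz]
  | cons x F ih => simp only [sz, List.map_cons, List.sum_cons, List.length_cons] at *; omega

lemma vr_lt (F : List (ℕ × ℕ × ℕ)) : ∀ k < F.length, ∀ r, vr F k r < sz F := by
  induction F with
  | nil => intro k hk; simp at hk
  | cons x F ih =>
    obtain ⟨a, b, c⟩ := x
    intro k hk r
    have hsz : sz ((a, b, c) :: F) = a + b + c + 1 + sz F := by simp [sz]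
    cases k with
    | zero =>
      rw [hsz]
      unfold vr
      split <;> simp <;> omega
    | succ k =>
      have h1 := ih k (by simpa using hk) r
      have h2 : vr ((a, b, c) :: F) (k + 1) r = vr F k r := by
        unfold vr
        split <;> simp
      rw [h2, hsz]; omega

lemma go_lt (F : List (ℕ × ℕ × ℕ)) : ∀ S ∈ go 0 F [], ∀ e ∈ S, e < 5 * sz F + 6 := by
  intro S hS e he
  rw [mem_go] at hS
  rcases hS with h | ⟨k, hk, r, hr, rfl⟩
  · simp at h
  · have h1 := vr_lt F k hk r
    have h2 := len_le_sz F
    simp only [sq, List.mem_cons, List.not_mem_nil, or_false] at he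
    rcases he with rfl | rfl | rfl | rfl <;> omega

lemma red_val (F : List (ℕ × ℕ × ℕ)) :
    ((red F).seqs.flatMap fun S => encS (S.map Fin.val)) = (go 0 F []).flatMap encS := by
  have h : ∀ S ∈ go 0 F [], (S.map (Fin.ofNat (5 * sz F + 6))).map Fin.val = S := by
    intro S hS
    rw [List.map_map]
    conv_rhs => rw [← List.map_id S]
    refine List.map_congr_left fun e he => ?_
    simp only [Function.comp, Fin.ofNat, id]
    exact Nat.mod_eq_of_lt (go_lt F S hS e he)
  unfold red
  simp only [List.flatMap_map]
  rw [List.flatMap_def, List.flatMap_def]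
  congr 1
  refine List.map_congr_left fun S hS => ?_
  rw [h S hS]

/-! ### Polynomial time -/

lemma un_length (k : ℕ) : (un k).length = k + 1 := by simp [un]

lemma encF_cons_length (x : ℕ × ℕ × ℕ) (F : List (ℕ × ℕ × ℕ)) :
    (encF (x :: F)).length = x.1 + 1 + (x.2.1 + 1) + (x.2.2 + 1) + (encF F).length := by
  unfold encF
  rw [List.flatMap_cons, List.length_append, List.length_append, List.length_append, un_length,
    un_length, un_length]

lemma sz_le (F : List (ℕ × ℕ × ℕ)) : sz F ≤ (encF F).length := by
  induction F with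
  | nil => simp [sz]
  | cons x F ih =>
    have h1 := encF_cons_length x F
    have h2 : sz (x :: F) = x.1 + x.2.1 + x.2.2 + 1 + sz F := by simp [sz]
    omega

lemma steps_le (F : List (ℕ × ℕ × ℕ)) :
    ∀ j, stepsF j F ≤ (6 * (j + F.length) + 10) * (encF F).length := by
  induction F with
  | nil => intro j; simp [stepsF]
  | cons x F ih =>
    obtain ⟨a, b, c⟩ := x
    intro j
    have h1 : (encF ((a, b, c) :: F)).length = a + 1 + (b + 1) + (c + 1) + (encF F).length :=
      encF_cons_length _ F
    have h2 := ih (j + 1)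
    have h3 : stepsF j ((a, b, c) :: F) = 6 * j + (a + b + c) + 10 + stepsF (j + 1) F := rfl
    have h4 : j + ((a, b, c) :: F).length = j + 1 + F.length := by simp; ring
    rw [h1, h3, h4]
    have h5 : (6 * (j + 1 + F.length) + 10) * (a + 1 + (b + 1) + (c + 1) + (encF F).length)
      = (6 * (j + 1 + F.length) + 10) * (a + b + c + 3)
        + (6 * (j + 1 + F.length) + 10) * (encF F).length := by ring
    rw [h5]
    have h6 : 6 * j + (a + b + c) + 10 ≤ (6 * (j + 1 + F.length) + 10) * (a + b + c + 3) := by
      nlinarith [Nat.zero_le (j * (a + b + c)), Nat.zero_le (F.length * (a + b + c))]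
    omega

lemma init_eq (s : List Bool) :
    initList tm s = cfg (some .start) none (stk s [] [] [] []) := by
  unfold initList cfg
  congr 1
  funext k
  cases k <;> rfl

lemma halt_eq (s : List Bool) :
    haltList tm s = cfg none none (stk [] s [] [] []) := by
  unfold haltList cfg
  congr 1
  funext k
  cases k <;> rfl

/-- The reduction is computable in polynomial time. -/
noncomputable def red_polytime : TM2ComputableInPolyTime encF encI red where
  tm := tm
  inputAlphabet := Equiv.refl _
  outputAlphabet := Equiv.refl _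
  time := 6 * Polynomial.X ^ 2 + 12 * Polynomial.X + 3
  outputsFun F := by
    refine ⟨⟨stepsF 0 F + 1 + (sz F + 1) + (F.length + 1), ?_⟩, ?_⟩
    · have h := run_total F
      unfold Run at h
      change (flip bind tm.step)^[stepsF 0 F + 1 + (sz F + 1) + (F.length + 1)]
        (some (initList tm (List.map id (encF F))))
          = Option.map (haltList tm) (some (List.map id (encI (red F))))
      have e3 : encI (red F) = un (5 * sz F + 6) ++ (go 0 F []).flatMap encS := by
        unfold encI
        rw [red_val]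
        rfl
      rw [List.map_id, List.map_id, e3]
      simp only [Option.map_some]
      rw [init_eq, halt_eq]
      exact h
    · have h1 := steps_le F 0
      have h2 := sz_le F
      have h3 := len_le_sz F
      simp only [Polynomial.eval_add, Polynomial.eval_mul, Polynomial.eval_pow, Polynomial.eval_X,
        Polynomial.eval_ofNat]
      set x := (encF F).length
      have h4 : (6 * (0 + F.length) + 10) * x ≤ (6 * x + 10) * x :=
        Nat.mul_le_mul_right _ (by omega)
      have h5 : (6 * x + 10) * x = 6 * x ^ 2 + 10 * x := by ring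
      omega

/-! ### Correctness: from a realisation to an assignment -/

lemma path4 {V : Type} {n : ℕ} {φ : Fin n → Sym2 V} {e1 e2 e3 e4 : Fin n}
    (h : IsSimplePath φ [e1, e2, e3, e4]) : ∃ v0 v1 v2 v3 v4 : V,
      v0 ≠ v2 ∧ v1 ≠ v3 ∧ v2 ≠ v3 ∧ φ e1 = s(v0, v1) ∧ φ e2 = s(v1, v2) ∧
      φ e3 = s(v2, v3) ∧ φ e4 = s(v3, v4) := by
  obtain ⟨v, hv, hvi⟩ := h
  refine ⟨v ⟨0, by simp⟩, v ⟨1, by simp⟩, v ⟨2, by simp⟩, v ⟨3, by simp⟩, v ⟨4, by simp⟩,
    hv.ne (by simp), hv.ne (by simp), hv.ne (by simp),
    hvi ⟨0, by simp⟩, hvi ⟨1, by simp⟩, hvi ⟨2, by simp⟩, hvi ⟨3, by simp⟩⟩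

lemma path4_mk {V : Type} {n : ℕ} {φ : Fin n → Sym2 V} {e1 e2 e3 e4 : Fin n} (v : Fin 5 → V)
    (hv : Function.Injective v) (h1 : φ e1 = s(v 0, v 1)) (h2 : φ e2 = s(v 1, v 2))
    (h3 : φ e3 = s(v 2, v 3)) (h4 : φ e4 = s(v 3, v 4)) :
    IsSimplePath φ [e1, e2, e3, e4] := by
  refine ⟨v, hv, fun i => ?_⟩
  have hi : i.val < 4 := i.isLt
  obtain ⟨i, hi'⟩ := i
  interval_cases i
  · exact h1
  · exact h2
  · exact h3
  · exact h4

lemma sound {F : List (ℕ × ℕ × ℕ)} (h : (red F).Realisable) : NAESat F := by
  classical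
  obtain ⟨V, -, G, φ, hpath⟩ := h
  have hn : 0 < 5 * sz F + 6 := by omega
  -- edge names
  let ψ : ℕ → Sym2 V := fun e => (φ (Fin.ofNat (5 * sz F + 6) e) : Sym2 V)
  have hψinj : ∀ e e', e < 5 * sz F + 6 → e' < 5 * sz F + 6 → ψ e = ψ e' → e = e' := by
    intro e e' he he' h
    have h1 := φ.injective (Subtype.ext h)
    have h2 := congrArg Fin.val h1
    simp only [Fin.ofNat] at h2
    rwa [Nat.mod_eq_of_lt he, Nat.mod_eq_of_lt he'] at h2
  -- the paths
  have hp : ∀ k < F.length, ∀ r, (r = 1 ∨ r = 2 ∨ r = 3) → ∃ v0 v1 v2 v3 v4 : V,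
      v0 ≠ v2 ∧ v1 ≠ v3 ∧ v2 ≠ v3 ∧ ψ (5 * vr F k r + 5) = s(v0, v1) ∧ ψ 0 = s(v1, v2) ∧
      ψ (5 * k + r) = s(v2, v3) ∧ ψ (5 * k + 4) = s(v3, v4) := by
    intro k hk r hr
    have hmem : (sq k r (vr F k r)).map (Fin.ofNat (5 * sz F + 6)) ∈ (red F).seqs :=
      List.mem_map.2 ⟨_, (mem_go F 0 [] _).2
        (Or.inr ⟨k, hk, r, hr, by rw [Nat.zero_add]⟩), rfl⟩
    exact path4 (hpath _ hmem)
  by_cases hF : F = []
  · subst hF; exact ⟨fun _ => true, by simp⟩
  -- fix the two endpoints of `e₀`
  obtain ⟨A, B, hAB⟩ : ∃ A B, ψ 0 = s(A, B) := by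
    induction hψ : ψ 0 with
    | _ A B => exact ⟨A, B, rfl⟩
  refine ⟨fun u => decide (A ∈ ψ (5 * u + 5)), ?_⟩
  intro c hc hall
  obtain ⟨k, hk, hkc⟩ := List.getElem_of_mem hc
  have hv1 : vr F k 1 = c.1 := by simp [vr, hk, hkc]
  have hv2 : vr F k 2 = c.2.1 := by simp [vr, hk, hkc]
  have hv3 : vr F k 3 = c.2.2 := by simp [vr, hk, hkc]
  -- each `f` hangs on the side determined by the value
  have key : ∀ r, (r = 1 ∨ r = 2 ∨ r = 3) → ∃ w, w ∈ ψ (5 * k + 4) ∧
      ψ (5 * k + r) = s(if A ∈ ψ (5 * vr F k r + 5) then B else A, w) := by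
    intro r hr
    obtain ⟨v0, v1, v2, v3, v4, h02, h13, h23, e1, e2, e3, e4⟩ := hp k hk r hr
    rw [hAB, Sym2.eq_iff] at e2
    refine ⟨v3, by rw [e4]; exact Sym2.mem_mk_left _ _, ?_⟩
    rcases e2 with ⟨rfl, rfl⟩ | ⟨rfl, rfl⟩
    · rw [if_pos (by rw [e1]; exact Sym2.mem_mk_right _ _)]
      exact e3
    · have : A ∉ ψ (5 * vr F k r + 5) := by
        rw [e1, Sym2.mem_iff]
        rintro (h | h)
        · exact h02 h.symm
        · have hd : ψ 0 ∈ G.edgeSet := (φ _).2
          rw [hAB, h] at hd
          exact G.loopless.irrefl _ hd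
      rw [if_neg this]
      exact e3
  obtain ⟨w1, m1, f1⟩ := key 1 (by simp)
  obtain ⟨w2, m2, f2⟩ := key 2 (by simp)
  obtain ⟨w3, m3, f3⟩ := key 3 (by simp)
  rw [hv1] at f1
  rw [hv2] at f2
  rw [hv3] at f3
  simp only [decide_eq_decide] at hall
  have i12 : (if A ∈ ψ (5 * c.1 + 5) then B else A) = (if A ∈ ψ (5 * c.2.1 + 5) then B else A) := by
    simp only [hall.1]
  have i23 : (if A ∈ ψ (5 * c.2.1 + 5) then B else A)
      = (if A ∈ ψ (5 * c.2.2 + 5) then B else A) := by
    simp only [hall.2]
  have hlen := len_le_sz F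
  have n12 : w1 ≠ w2 := by
    intro h
    rw [i12, h, ← f2] at f1
    have := hψinj _ _ (by omega) (by omega) f1
    omega
  have n23 : w2 ≠ w3 := by
    intro h
    rw [i23, h, ← f3] at f2
    have := hψinj _ _ (by omega) (by omega) f2
    omega
  have n13 : w1 ≠ w3 := by
    intro h
    rw [i12, i23, h, ← f3] at f1
    have := hψinj _ _ (by omega) (by omega) f1
    omega
  obtain ⟨p, q, hpq⟩ : ∃ p q, ψ (5 * k + 4) = s(p, q) := by
    induction hψ : ψ (5 * k + 4) with
    | _ p q => exact ⟨p, q, rfl⟩
  rw [hpq, Sym2.mem_iff] at m1 m2 m3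
  rcases m1 with rfl | rfl <;> rcases m2 with rfl | rfl <;> rcases m3 with rfl | rfl <;>
    first
      | exact n12 rfl
      | exact n23 rfl
      | exact n13 rfl


/-! ### Correctness: from an assignment to a realisation -/

/-- The far end chosen by the `r`-th hanging edge of clause `j`. -/
def pb (F : List (ℕ × ℕ × ℕ)) (val : ℕ → Bool) (j r : ℕ) : Bool :=
  match r with
  | 1 => false
  | 2 => val (vr F j 1) == val (vr F j 2)
  | _ => val (vr F j 1) != val (vr F j 2)

/-- The endpoints of the edges. -/
def ends (F : List (ℕ × ℕ × ℕ)) (val : ℕ → Bool) (e : ℕ) : (ℕ × Bool) × (ℕ × Bool) :=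
  if e = 0 then ((0, false), (0, true))
  else if e % 5 = 0 then ((e, false), (0, val (e / 5 - 1)))
  else if e % 5 = 4 ∨ F.length ≤ e / 5 then ((e, false), (e, true))
  else ((0, !(val (vr F (e / 5) (e % 5)))), (5 * (e / 5) + 4, pb F val (e / 5) (e % 5)))

lemma ends_ne (F : List (ℕ × ℕ × ℕ)) (val : ℕ → Bool) (e : ℕ) :
    (ends F val e).1 ≠ (ends F val e).2 := by
  unfold ends
  split_ifs with h1 h2 h3
  · simp
  · intro h
    exact h1 (congrArg Prod.fst h)
  · simp
  · intro h
    have := congrArg Prod.fst h
    simp at this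

lemma ends_lt (F : List (ℕ × ℕ × ℕ)) (val : ℕ → Bool) (e : ℕ) (he : e < 5 * sz F + 6) :
    (ends F val e).1.1 < 5 * sz F + 6 ∧ (ends F val e).2.1 < 5 * sz F + 6 := by
  have hl := len_le_sz F
  unfold ends
  split_ifs with h1 h2 h3
  · simp
  · simp; exact he
  · simp; exact he
  · simp only
    push Not at h3
    omega

lemma ends_inj (F : List (ℕ × ℕ × ℕ)) (val : ℕ → Bool)
    (hval : ∀ j < F.length, ¬ (val (vr F j 1) = val (vr F j 2) ∧
      val (vr F j 2) = val (vr F j 3))) (e e' : ℕ)
    (h : s((ends F val e).1, (ends F val e).2) = s((ends F val e').1, (ends F val e').2)) :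
    e = e' := by
  rw [Sym2.eq_iff] at h
  unfold ends at h
  split_ifs at h with h1 h2 h3 h4 h5 h6 h7 h8 h9 h10 h11 h12 h13 h14 h15 <;>
    simp only [Prod.mk.injEq] at h
  all_goals try omega
  -- only the case of two hanging edges is left
  rcases h with h | h
  · obtain ⟨⟨-, hs⟩, hj, hp⟩ := h
    have hjj : e / 5 = e' / 5 := by omega
    rw [← hjj] at hs hp
    have hj' : e / 5 < F.length := by omega
    have hv := hval _ hj'
    have hr : e % 5 = 1 ∨ e % 5 = 2 ∨ e % 5 = 3 := by omega
    have hr' : e' % 5 = 1 ∨ e' % 5 = 2 ∨ e' % 5 = 3 := by omega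
    have hmod : e % 5 = e' % 5 := by
      rcases hr with hr | hr | hr <;> rcases hr' with hr' | hr' | hr' <;>
        rw [hr, hr'] at hs hp ⊢ <;> exfalso <;> simp only [pb] at hp <;>
        revert hs hp hv <;>
        generalize val (vr F (e / 5) 1) = x <;>
        generalize val (vr F (e / 5) 2) = y <;>
        generalize val (vr F (e / 5) 3) = z <;>
        revert x y z <;> decide
    omega
  · omega

lemma complete {F : List (ℕ × ℕ × ℕ)} (h : NAESat F) : (red F).Realisable := by
  classical
  obtain ⟨val, hval⟩ := h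
  have hval' : ∀ j < F.length, ¬ (val (vr F j 1) = val (vr F j 2) ∧
      val (vr F j 2) = val (vr F j 3)) := by
    intro j hj
    have := hval _ (List.getElem_mem hj)
    simpa [vr, hj] using this
  set n := 5 * sz F + 6 with hn
  let mk : ℕ × Bool → Fin n × Bool := fun p => (Fin.ofNat n p.1, p.2)
  let back : Fin n × Bool → ℕ × Bool := fun p => (p.1.val, p.2)
  have hback : ∀ p : ℕ × Bool, p.1 < n → back (mk p) = p := by
    intro p hp
    simp only [mk, back, Fin.ofNat]
    rw [Nat.mod_eq_of_lt hp]
  let φ : Fin n → Sym2 (Fin n × Bool) :=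
    fun e => s(mk (ends F val e.val).1, mk (ends F val e.val).2)
  have hmap : ∀ e : Fin n, Sym2.map back (φ e)
      = s((ends F val e.val).1, (ends F val e.val).2) := by
    intro e
    have := ends_lt F val e.val e.isLt
    simp only [φ, Sym2.map_mk]
    rw [hback _ this.1, hback _ this.2]
  have hinj : Function.Injective φ := by
    intro e e' hee
    have h1 := congrArg (Sym2.map back) hee
    rw [hmap, hmap] at h1
    exact Fin.ext (ends_inj F val hval' _ _ h1)
  have hdiag : ∀ e, ¬ (φ e).IsDiag := by
    intro e hd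
    have := ends_lt F val e.val e.isLt
    simp only [φ, Sym2.mk_isDiag_iff] at hd
    apply ends_ne F val e.val
    rw [← hback _ this.1, ← hback _ this.2, hd]
  let G : SimpleGraph (Fin n × Bool) := SimpleGraph.fromEdgeSet (Set.range φ)
  have hG : Set.range φ = G.edgeSet := by
    simp only [G, SimpleGraph.edgeSet_fromEdgeSet]
    ext x
    constructor
    · rintro ⟨e, rfl⟩
      exact ⟨⟨e, rfl⟩, hdiag e⟩
    · exact fun hx => hx.1
  let Φ : Fin n ≃ G.edgeSet := (Equiv.ofInjective φ hinj).trans (Equiv.setCongr hG)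
  have hΦ : ∀ e, (Φ e : Sym2 (Fin n × Bool)) = φ e := fun e => rfl
  refine ⟨Fin n × Bool, inferInstance, G, Φ, ?_⟩
  intro S hS
  have hS' : S ∈ (go 0 F []).map (fun S => S.map (Fin.ofNat (5 * sz F + 6))) := hS
  obtain ⟨S0, hS0, rfl⟩ := List.mem_map.1 hS'
  rw [mem_go] at hS0
  rcases hS0 with h | ⟨k, hk, r, hr, rfl⟩
  · simp at h
  rw [Nat.zero_add]
  have hlt := vr_lt F k hk r
  have hlen := len_le_sz F
  -- names of the edges
  set u := vr F k r with hu
  have hg : 5 * u + 5 < n := by omega
  have h0 : 0 < n := by omega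
  have hf : 5 * k + r < n := by omega
  have hh : 5 * k + 4 < n := by omega
  have vg : (Fin.ofNat n (5 * u + 5)).val = 5 * u + 5 := Nat.mod_eq_of_lt hg
  have v0 : (Fin.ofNat n 0).val = 0 := Nat.mod_eq_of_lt h0
  have vf : (Fin.ofNat n (5 * k + r)).val = 5 * k + r := Nat.mod_eq_of_lt hf
  have vh : (Fin.ofNat n (5 * k + 4)).val = 5 * k + 4 := Nat.mod_eq_of_lt hh
  have eg : ends F val (5 * u + 5) = ((5 * u + 5, false), (0, val u)) := by
    unfold ends
    rw [if_neg (by omega), if_pos (by omega)]
    have : (5 * u + 5) / 5 - 1 = u := by omega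
    rw [this]
  have e0 : ends F val 0 = ((0, false), (0, true)) := by simp [ends]
  have ef : ends F val (5 * k + r) = ((0, !(val u)), (5 * k + 4, pb F val k r)) := by
    unfold ends
    have h1 : (5 * k + r) / 5 = k := by omega
    have h2 : (5 * k + r) % 5 = r := by omega
    rw [if_neg (by omega), if_neg (by omega), if_neg (by omega), h1, h2]
  have eh : ends F val (5 * k + 4) = ((5 * k + 4, false), (5 * k + 4, true)) := by
    unfold ends
    rw [if_neg (by omega), if_neg (by omega), if_pos (by omega)]
  set pp := pb F val k r with hpp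
  refine path4_mk (V := Fin n × Bool)
    ![mk (5 * u + 5, false), mk (0, val u), mk (0, !(val u)), mk (5 * k + 4, pp),
      mk (5 * k + 4, !pp)] ?_ ?_ ?_ ?_ ?_
  · -- injectivity
    have hb : Function.Injective (back ∘ ![mk (5 * u + 5, false), mk (0, val u), mk (0, !(val u)),
        mk (5 * k + 4, pp), mk (5 * k + 4, !pp)]) := by
      have hcomp : (back ∘ ![mk (5 * u + 5, false), mk (0, val u), mk (0, !(val u)),
          mk (5 * k + 4, pp), mk (5 * k + 4, !pp)]) = ![(5 * u + 5, false), (0, val u),
          (0, !(val u)), (5 * k + 4, pp), (5 * k + 4, !pp)] := by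
        funext i
        fin_cases i
        · exact hback _ hg
        · exact hback _ h0
        · exact hback _ h0
        · exact hback _ hh
        · exact hback _ hh
      rw [hcomp]
      intro i j hij
      fin_cases i <;> fin_cases j <;> simp at hij ⊢ <;> omega
    exact hb.of_comp
  · change s(mk (ends F val (Fin.ofNat n (5 * u + 5)).val).1,
      mk (ends F val (Fin.ofNat n (5 * u + 5)).val).2) = s(mk (5 * u + 5, false), mk (0, val u))
    rw [vg, eg]
  · change s(mk (ends F val (Fin.ofNat n 0).val).1,
      mk (ends F val (Fin.ofNat n 0).val).2) = s(mk (0, val u), mk (0, !(val u)))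
    rw [v0, e0]
    cases val u
    · rfl
    · exact Sym2.eq_swap
  · change s(mk (ends F val (Fin.ofNat n (5 * k + r)).val).1,
      mk (ends F val (Fin.ofNat n (5 * k + r)).val).2) = s(mk (0, !(val u)), mk (5 * k + 4, pp))
    rw [vf, ef]
  · change s(mk (ends F val (Fin.ofNat n (5 * k + 4)).val).1,
      mk (ends F val (Fin.ofNat n (5 * k + 4)).val).2) = s(mk (5 * k + 4, pp), mk (5 * k + 4, !pp))
    rw [vh, eh]
    cases pp
    · rfl
    · exact Sym2.eq_swap


/-! ### The encodings are injective -/

lemma un_inj : ∀ {k k' : ℕ} {l l' : List Bool}, un k ++ l = un k' ++ l' → k = k' ∧ l = l' := by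
  intro k
  induction k with
  | zero =>
    intro k' l l' h
    cases k' with
    | zero => simpa [un] using h
    | succ k' => simp [un, List.replicate_succ] at h
  | succ k ih =>
    intro k' l l' h
    cases k' with
    | zero => simp [un, List.replicate_succ] at h
    | succ k' =>
      have h' : un k ++ l = un k' ++ l' := by
        simpa [un, List.replicate_succ] using h
      obtain ⟨h1, h2⟩ := ih h'
      exact ⟨by rw [h1], h2⟩

lemma un_ne_nil (k : ℕ) (l : List Bool) : un k ++ l ≠ [] := by
  simp [un]

lemma encF_inj : Function.Injective encF := by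
  intro F
  induction F with
  | nil =>
    intro F' h
    cases F' with
    | nil => rfl
    | cons x F' =>
      exfalso
      have h' : encF (x :: F') = un x.1 ++ (un x.2.1 ++ (un x.2.2 ++ encF F')) := by
        simp [encF, List.append_assoc]
      rw [h'] at h
      exact un_ne_nil _ _ h.symm
  | cons y F ih =>
    intro F' h
    have hy : encF (y :: F) = un y.1 ++ (un y.2.1 ++ (un y.2.2 ++ encF F)) := by
      simp [encF, List.append_assoc]
    cases F' with
    | nil => rw [hy] at h; exact absurd h (un_ne_nil _ _)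
    | cons x F' =>
      have hx : encF (x :: F') = un x.1 ++ (un x.2.1 ++ (un x.2.2 ++ encF F')) := by
        simp [encF, List.append_assoc]
      rw [hy, hx] at h
      obtain ⟨h1, h⟩ := un_inj h
      obtain ⟨h2, h⟩ := un_inj h
      obtain ⟨h3, h⟩ := un_inj h
      rw [ih h]
      congr 1
      exact Prod.ext h1 (Prod.ext h2 h3)

lemma flatMap_un_inj : ∀ {S S' : List ℕ} {l l' : List Bool}, S.length = S'.length →
    S.flatMap un ++ l = S'.flatMap un ++ l' → S = S' ∧ l = l' := by
  intro S
  induction S with
  | nil =>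
    intro S' l l' hlen h
    cases S' with
    | nil => exact ⟨rfl, by simpa using h⟩
    | cons x S' => simp at hlen
  | cons y S ih =>
    intro S' l l' hlen h
    cases S' with
    | nil => simp at hlen
    | cons x S' =>
      rw [List.flatMap_cons, List.flatMap_cons, List.append_assoc, List.append_assoc] at h
      obtain ⟨h1, h⟩ := un_inj h
      obtain ⟨h2, h3⟩ := ih (by simpa using hlen) h
      exact ⟨by rw [h1, h2], h3⟩

lemma encS_inj {S S' : List ℕ} {l l' : List Bool} (h : encS S ++ l = encS S' ++ l') :
    S = S' ∧ l = l' := by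
  unfold encS at h
  rw [List.append_assoc, List.append_assoc] at h
  obtain ⟨h1, h⟩ := un_inj h
  exact flatMap_un_inj h1 h

lemma flatMap_encS_inj : ∀ {L L' : List (List ℕ)}, L.flatMap encS = L'.flatMap encS → L = L' := by
  intro L
  induction L with
  | nil =>
    intro L' h
    cases L' with
    | nil => rfl
    | cons x L' =>
      exfalso
      rw [List.flatMap_cons, List.flatMap_nil] at h
      unfold encS at h
      rw [List.append_assoc] at h
      exact un_ne_nil _ _ h.symm
  | cons y L ih =>
    intro L' h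
    cases L' with
    | nil =>
      exfalso
      rw [List.flatMap_cons, List.flatMap_nil] at h
      unfold encS at h
      rw [List.append_assoc] at h
      exact un_ne_nil _ _ h
    | cons x L' =>
      rw [List.flatMap_cons, List.flatMap_cons] at h
      obtain ⟨h1, h2⟩ := encS_inj h
      rw [h1, ih h2]

lemma encI_inj : Function.Injective encI := by
  rintro ⟨n, L⟩ ⟨n', L'⟩ h
  unfold encI at h
  obtain ⟨h1, h2⟩ := un_inj h
  simp only at h1 h2
  subst h1
  have h3 : L.map (List.map Fin.val) = L'.map (List.map Fin.val) := by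
    apply flatMap_encS_inj
    rw [List.flatMap_map, List.flatMap_map]
    exact h2
  have hinj : Function.Injective (List.map (List.map (Fin.val : Fin n → ℕ))) :=
    List.map_injective_iff.2 (List.map_injective_iff.2 Fin.val_injective)
  rw [hinj h3]

lemma red_len (F : List (ℕ × ℕ × ℕ)) : ∀ S ∈ (red F).seqs, S.length = 4 := by
  intro S hS
  have hS' : S ∈ (go 0 F []).map (fun S => S.map (Fin.ofNat (5 * sz F + 6))) := hS
  obtain ⟨S0, hS0, rfl⟩ := List.mem_map.1 hS'
  rw [mem_go] at hS0
  rcases hS0 with h | ⟨k, hk, r, hr, rfl⟩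
  · simp at h
  · simp [sq]

/-- **NP-hardness of path-sequence realisation.**  Monotone not-all-equal 3-satisfiability (an
NP-complete problem) is reducible, by a many-one reduction computable in polynomial time by a
(multi-stack) Turing machine, to the problem whether an instance `(E; S₁, …, S_m)` has a
realisation; the instances produced only use sequences with four elements.  The encodings used are
injective. -/
theorem result :
    Function.Injective encF ∧ Function.Injective encI ∧
    ∃ f : List (ℕ × ℕ × ℕ) → Inst,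
      Nonempty (Turing.TM2ComputableInPolyTime encF encI f) ∧
      (∀ F, NAESat F ↔ (f F).Realisable) ∧ ∀ F, ∀ S ∈ (f F).seqs, S.length = 4 :=
  ⟨encF_inj, encI_inj, red, ⟨red_polytime⟩, fun _ => ⟨complete, sound⟩, red_len⟩

end Pool.Agent.Results.MP_a6fa5c_lc.NPHard
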